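import Pool.Agent.Helper76.CV.Goals

namespace Pool.Agent.Helper84.CV.SC2

open Pool.Agent.Helper76.CV

theorem t : Pool.Agent.Helper76.CV.SC2 := by
  intro w c2 v σ f1 A M ρ R h
  have hv1 := h.v1
  have hR := h.R0
  have hσ := h.σ0
  have hρ1 := h.ρ1
  have hρ2 := h.ρ2
  have hcs := h.cs
  have h1 : (σ * ρ - M) ^ 2 ≤ (2001 / 2000 * R) ^ 2 := by
    have h2 : ρ * R ^ 2 = (ρ * A - M ^ 2) + (σ * ρ - M) ^ 2 := by
      rw [h.R2]
      ring
    have h3 : ρ * R ^ 2 ≤ 1001 / 1000 * R ^ 2 := by gcongr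
    have h4 : 0 ≤ R ^ 2 := sq_nonneg R
    nlinarith
  have h2 : σ * ρ - M ≤ 2001 / 2000 * R := by
    have := abs_le_of_sq_le_sq h1 (by positivity)
    exact (le_abs_self _).trans this
  have h3 : M ≤ 5607 / 10000 := by
    have h4 : M ^ 2 ≤ (5607 / 10000) ^ 2 := by
      have := h.M1
      nlinarith
    exact (le_abs_self _).trans (abs_le_of_sq_le_sq h4 (by norm_num))
  have h4 : 999 / 1000 * σ ≤ 2001 / 2000 * R + 5607 / 10000 := by
    have : 999 / 1000 * σ ≤ σ * ρ := by nlinarith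
    linarith
  have h5 : 529 / 1000 ≤ R := by
    have h6 : (529 / 1000) ^ 2 ≤ R ^ 2 := by
      rcases h.cas with ⟨-, h7⟩ | ⟨-, h7⟩ | ⟨-, h7, -⟩
      · nlinarith
      · linarith
      · linarith
    exact le_of_sq_le_sq h6 hR.le
  rcases h.σv with h6 | h6
  · have h7 : 85 / 2 * R * (6 / 100) ≤ 85 / 2 * R * v := by gcongr
    linarith
  · have h7 : 85 / 2 * R * (38 / 1000) ≤ 85 / 2 * R * v := by gcongr
    linarith

end Pool.Agent.Helper84.CV.SC2
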